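import Pool.Agent.W2helper58.GA.Final

/-!
# Graph Automorphism is in `ZPP` relative to the set of KT-random strings
-/

namespace Pool.Agent.Results.MP_8416b9_lc.GraphAutZPPRKT

open Pool.Agent.W2helper58.GA Pool.Agent.H620R2.Gauge

/-- For every efficient universal machine `U`, Graph Automorphism is in `ZPP` relative to the set
`R_KT` of the strings `x` with `KT x ≥ |x|`. -/
theorem result (U : RTM) (hU : U.Universal) : IsZPP (RKT U.Accepts) GraphAut :=
  zpp_good hU.good

end Pool.Agent.Results.MP_8416b9_lc.GraphAutZPPRKT
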